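import Pool.Agent.K7.H74.AF.Stm

set_option autoImplicit false

/-!
# Job TVL: the sum over one variable and the integral
-/

open MeasureTheory Finset

namespace Pool.Agent.K7.H90.AF.Tvl

open Pool.Agent.K7.H74.AF

/-! ### The section in the largest variable -/

/-- the measure of a section -/
noncomputable def ps (k : ℕ) (l h η z : ℝ) : ENNReal :=
  volume {w : ℝ | l ≤ w ∧ w < h ∧ |w ^ k - z| ≤ η}

/-- the `k`-th root of the positive part -/
noncomputable def rt (k : ℕ) (z : ℝ) : ℝ := (max z 0) ^ ((1 : ℝ) / k)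

/-- the clamped root -/
noncomputable def G (k : ℕ) (l h z : ℝ) : ℝ := max l (min h (rt k z))

lemma rt_nonneg (k : ℕ) (z : ℝ) : 0 ≤ rt k z := Real.rpow_nonneg (le_max_right _ _) _

lemma rt_mono (k : ℕ) : Monotone (rt k) := by
  intro x y hxy
  unfold rt
  exact Real.rpow_le_rpow (le_max_right _ _) (max_le_max_right _ hxy) (by positivity)

lemma rt_pow (k : ℕ) (hk : k ≠ 0) (z : ℝ) : rt k z ^ k = max z 0 := by
  unfold rt
  rw [← Real.rpow_natCast, ← Real.rpow_mul (le_max_right _ _)]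
  have : (1 : ℝ) / k * k = 1 := by
    field_simp
  rw [this, Real.rpow_one]

lemma rt_le_iff (k : ℕ) (hk : k ≠ 0) (z w : ℝ) (hw : 0 ≤ w) : rt k z ≤ w ↔ z ≤ w ^ k := by
  rw [← pow_le_pow_iff_left₀ (rt_nonneg k z) hw hk, rt_pow k hk]
  constructor
  · intro h
    exact le_trans (le_max_left _ _) h
  · intro h
    exact max_le h (by positivity)

lemma lt_rt (k : ℕ) (hk : k ≠ 0) (z w : ℝ) (hw : 0 ≤ w) (h : w < rt k z) : w ^ k < z := by
  by_contra hcon
  push Not at hcon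
  have := (rt_le_iff k hk z w hw).2 hcon
  linarith

lemma le_rt (k : ℕ) (hk : k ≠ 0) (z w : ℝ) (hw : 0 ≤ w) (h : w ^ k ≤ z) : w ≤ rt k z := by
  rw [← pow_le_pow_iff_left₀ hw (rt_nonneg k z) hk, rt_pow k hk]
  exact le_trans h (le_max_left _ _)

lemma G_mono (k : ℕ) (l h : ℝ) : Monotone (G k l h) := by
  intro x y hxy
  unfold G
  exact max_le_max le_rfl (min_le_min le_rfl (rt_mono k hxy))

/-- the closed form -/
noncomputable def P (k : ℕ) (l h η z : ℝ) : ℝ := G k l h (z + η) - G k l h (z - η)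

lemma P_nonneg (k : ℕ) (l h η z : ℝ) (hη : 0 ≤ η) : 0 ≤ P k l h η z := by
  unfold P
  have := G_mono k l h (show z - η ≤ z + η by linarith)
  linarith

lemma ps_eq (k : ℕ) (hk : k ≠ 0) (l h η z : ℝ) (hl : 0 ≤ l) :
    ps k l h η z = ENNReal.ofReal (P k l h η z) := by
  unfold ps P
  apply le_antisymm
  · rw [← Real.volume_Icc]
    apply measure_mono
    rintro w ⟨h1, h2, h3⟩
    rw [abs_le] at h3
    have hw : 0 ≤ w := le_trans hl h1
    have h4 : rt k (z - η) ≤ w := (rt_le_iff k hk _ _ hw).2 (by linarith)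
    have h5 : w ≤ rt k (z + η) := le_rt k hk _ _ hw (by linarith)
    constructor
    · exact max_le h1 (le_trans (min_le_right _ _) h4)
    · exact le_trans (le_min h2.le h5) (le_max_right _ _)
  · rw [← Real.volume_Ioo]
    apply measure_mono
    rintro w ⟨h1, h2⟩
    have h3 : l < w := lt_of_le_of_lt (le_max_left _ _) h1
    have h4 : min h (rt k (z - η)) < w := lt_of_le_of_lt (le_max_right _ _) h1
    have h5 : w < min h (rt k (z + η)) := by
      rcases lt_max_iff.1 h2 with h6 | h6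
      · exact absurd h6 (not_lt.2 h3.le)
      · exact h6
    have hw : 0 ≤ w := le_trans hl h3.le
    have h6 := lt_min_iff.1 h5
    have h7 : rt k (z - η) < w := by
      rcases min_lt_iff.1 h4 with h8 | h8
      · exact absurd h8 (not_lt.2 h6.1.le)
      · exact h8
    refine ⟨h3.le, h6.1, ?_⟩
    rw [abs_le]
    have h8 := (rt_le_iff k hk _ _ hw).1 h7.le
    have h9 := lt_rt k hk _ _ hw h6.2
    constructor <;> linarith

lemma G_low (k : ℕ) (hk : k ≠ 0) (l h s : ℝ) (hl : 0 ≤ l) (hs : s ≤ l ^ k) : G k l h s = l := by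
  unfold G
  have := (rt_le_iff k hk s l hl).2 hs
  exact max_eq_left (le_trans (min_le_right _ _) this)

lemma G_high (k : ℕ) (hk : k ≠ 0) (l h s : ℝ) (hl : 0 ≤ l) (hlh : l ≤ h) (hs : l ^ k ≤ s) :
    G k l h s = min h (s ^ ((1 : ℝ) / k)) := by
  have h0 : 0 ≤ s := le_trans (by positivity) hs
  have h1 : rt k s = s ^ ((1 : ℝ) / k) := by
    unfold rt
    rw [max_eq_left h0]
  unfold G
  have h2 := le_rt k hk s l hl hs
  rw [max_eq_right (le_min hlh h2), h1]

lemma P_mono (k : ℕ) (hk : k ≠ 0) (l h η : ℝ) (hl : 0 ≤ l) (z z' : ℝ) (hz : z ≤ z')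
    (hz' : z' ≤ l ^ k + η) : P k l h η z ≤ P k l h η z' := by
  unfold P
  rw [G_low k hk l h (z - η) hl (by linarith), G_low k hk l h (z' - η) hl (by linarith)]
  have := G_mono k l h (show z + η ≤ z' + η by linarith)
  linarith

lemma conc (f : ℝ → ℝ) (hf : ConcaveOn ℝ (Set.Ici 0) f) (a b d : ℝ) (ha : 0 ≤ a) (hab : a ≤ b) (hd : 0 < d) :
    f (b + d) - f b ≤ f (a + d) - f a := by
  have hD : 0 < b + d - a := by linarith
  set μ : ℝ := d / (b + d - a) with hμ
  have hμ0 : 0 ≤ μ := by positivity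
  have hμ1 : μ ≤ 1 := by
    rw [hμ, div_le_one hD]
    linarith
  have e1 : μ * (b + d - a) = d := by
    rw [hμ]
    field_simp
  have ha' : a ∈ Set.Ici (0 : ℝ) := ha
  have hb' : b + d ∈ Set.Ici (0 : ℝ) := by
    show (0 : ℝ) ≤ b + d
    linarith
  have h1 := hf.2 ha' hb' (show 0 ≤ 1 - μ by linarith) hμ0 (by ring)
  have h2 := hf.2 ha' hb' hμ0 (show 0 ≤ 1 - μ by linarith) (by ring)
  simp only [smul_eq_mul] at h1 h2
  have e2 : (1 - μ) * a + μ * (b + d) = a + d := by linear_combination e1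
  have e3 : μ * a + (1 - μ) * (b + d) = b := by linear_combination -e1
  rw [e2] at h1
  rw [e3] at h2
  linarith

lemma P_anti (k : ℕ) (hk : k ≠ 0) (l h η : ℝ) (hl : 0 ≤ l) (hlh : l ≤ h) (hη : 0 < η) (z z' : ℝ) (hz : z ≤ z')
    (hz' : l ^ k + η ≤ z) : P k l h η z' ≤ P k l h η z := by
  unfold P
  have hlk : 0 ≤ l ^ k := by positivity
  rw [G_high k hk l h (z' + η) hl hlh (by linarith), G_high k hk l h (z' - η) hl hlh (by linarith),
    G_high k hk l h (z + η) hl hlh (by linarith), G_high k hk l h (z - η) hl hlh (by linarith)]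
  have hc : ConcaveOn ℝ (Set.Ici 0) fun s : ℝ => min h (s ^ ((1 : ℝ) / k)) := by
    have h1 : ConcaveOn ℝ (Set.Ici (0 : ℝ)) fun _ : ℝ => h := concaveOn_const _ (convex_Ici _)
    have h2 : ConcaveOn ℝ (Set.Ici 0) fun s : ℝ => s ^ ((1 : ℝ) / k) := by
      apply Real.concaveOn_rpow (by positivity)
      rw [div_le_one (by positivity)]
      exact_mod_cast Nat.one_le_iff_ne_zero.2 hk
    exact h1.inf h2
  have := conc _ hc (z - η) (z' - η) (2 * η) (by linarith) (by linarith) (by linarith)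
  have e1 : z' - η + 2 * η = z' + η := by ring
  have e2 : z - η + 2 * η = z + η := by ring
  rw [e1, e2] at this
  exact this

/-- the variation function -/
noncomputable def V (k : ℕ) (l h η z : ℝ) : ℝ :=
  if z ≤ l ^ k + η then P k l h η z else 2 * P k l h η (l ^ k + η) - P k l h η z

lemma P_le (k : ℕ) (hk : k ≠ 0) (l h η : ℝ) (hl : 0 ≤ l) (hlh : l ≤ h) (hη : 0 < η) (z : ℝ) :
    P k l h η z ≤ P k l h η (l ^ k + η) := by
  rcases le_total z (l ^ k + η) with h1 | h1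
  · exact P_mono k hk l h η hl _ _ h1 le_rfl
  · exact P_anti k hk l h η hl hlh hη _ _ h1 le_rfl

lemma V_var (k : ℕ) (hk : k ≠ 0) (l h η : ℝ) (hl : 0 ≤ l) (hlh : l ≤ h) (hη : 0 < η) (z z' : ℝ) (hz : z ≤ z') :
    |P k l h η z - P k l h η z'| ≤ V k l h η z' - V k l h η z := by
  unfold V
  have hm := P_le k hk l h η hl hlh hη
  by_cases h1 : z' ≤ l ^ k + η
  · rw [if_pos h1, if_pos (le_trans hz h1)]
    have := P_mono k hk l h η hl z z' hz h1
    rw [abs_le]
    constructor <;> linarith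
  · rw [if_neg h1]
    push Not at h1
    by_cases h2 : z ≤ l ^ k + η
    · rw [if_pos h2]
      have h3 := hm z
      have h4 := hm z'
      rw [abs_le]
      constructor <;> linarith
    · rw [if_neg h2]
      push Not at h2
      have := P_anti k hk l h η hl hlh hη z z' hz h2.le
      rw [abs_le]
      constructor <;> linarith

lemma V_mono (k : ℕ) (hk : k ≠ 0) (l h η : ℝ) (hl : 0 ≤ l) (hlh : l ≤ h) (hη : 0 < η) : Monotone (V k l h η) := by
  intro z z' hz
  have h1 := V_var k hk l h η hl hlh hη z z' hz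
  have h2 := abs_nonneg (P k l h η z - P k l h η z')
  linarith

lemma V_nonneg (k : ℕ) (hk : k ≠ 0) (l h η : ℝ) (hl : 0 ≤ l) (hlh : l ≤ h) (hη : 0 < η) (z : ℝ) :
    0 ≤ V k l h η z := by
  unfold V
  split_ifs with h1
  · exact P_nonneg k l h η z hη.le
  · have h1 := P_nonneg k l h η (l ^ k + η) hη.le
    have h2 := P_le k hk l h η hl hlh hη z
    linarith

lemma V_le (k : ℕ) (l h η : ℝ) (hη : 0 < η) (M : ℝ) (hM : ∀ z, P k l h η z ≤ M) (z : ℝ) :
    V k l h η z ≤ 2 * M := by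
  unfold V
  have h0 := P_nonneg k l h η z hη.le
  split_ifs with h1
  · have h1 := hM z
    linarith
  · have h1 := hM (l ^ k + η)
    linarith

/-- the bound for the sections -/
lemma P_bound (k : ℕ) (hk : 2 ≤ k) (a : ℕ) (η : ℝ) (hη1 : η ≤ 1) (z : ℝ) :
    P k (lo a) (3 ^ a) η z ≤ 2 * 3 ^ (k - 1) / ((3 : ℝ) ^ a) ^ (k - 1) := by
  have hk0 : k ≠ 0 := by omega
  have hb0 : (0 : ℝ) ≤ 2 * 3 ^ (k - 1) / ((3 : ℝ) ^ a) ^ (k - 1) := by positivity
  set l : ℝ := (lo a : ℝ) with hl'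
  have hl : 0 ≤ l := by positivity
  unfold P
  set p := G k l (3 ^ a) (z - η) with hp
  set q := G k l (3 ^ a) (z + η) with hq
  by_cases hpq : q ≤ p
  · linarith
  push Not at hpq
  have hlp : l ≤ p := le_max_left _ _
  have hq1 : q ≤ min (3 ^ a) (rt k (z + η)) := by
    by_contra hcon
    push Not at hcon
    have : q = l := by
      rw [hq]
      unfold G
      rcases le_total (min ((3 : ℝ) ^ a) (rt k (z + η))) l with h1 | h1
      · exact max_eq_left h1
      · exfalso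
        have h2 : q = min ((3 : ℝ) ^ a) (rt k (z + η)) := by
          rw [hq]
          unfold G
          exact max_eq_right h1
        linarith
    linarith
  have hq3 : q ≤ 3 ^ a := le_trans hq1 (min_le_left _ _)
  have hp3 : p < 3 ^ a := lt_of_lt_of_le hpq hq3
  rcases Nat.eq_zero_or_pos a with ha | ha
  · subst ha
    simp only [pow_zero, one_pow, div_one] at *
    have h1 : (1 : ℝ) ≤ 3 ^ (k - 1) := one_le_pow₀ (by norm_num)
    linarith
  · have hla : (3 : ℝ) * l = 3 ^ a := by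
      rw [hl']
      unfold lo
      rw [if_neg (by omega)]
      push_cast
      rw [← pow_succ']
      congr 1
      omega
    have hlpos : 0 < l := by
      have : (0 : ℝ) < 3 ^ a := by positivity
      linarith
    have hppos : 0 < p := lt_of_lt_of_le hlpos hlp
    have hqpos : 0 < q := lt_trans hppos hpq
    have h1 : z - η ≤ p ^ k := by
      apply (rt_le_iff k hk0 _ _ hppos.le).1
      have h2 : min ((3 : ℝ) ^ a) (rt k (z - η)) ≤ p := le_max_right _ _
      rcases min_le_iff.1 h2 with h3 | h3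
      · linarith
      · exact h3
    have h2 : q ^ k ≤ z + η := by
      have h3 : q ≤ rt k (z + η) := le_trans hq1 (min_le_right _ _)
      have h4 : q ^ k ≤ rt k (z + η) ^ k := pow_le_pow_left₀ hqpos.le h3 k
      rw [rt_pow k hk0] at h4
      rcases le_total (z + η) 0 with h5 | h5
      · rw [max_eq_right h5] at h4
        have : 0 < q ^ k := by positivity
        linarith
      · rwa [max_eq_left h5] at h4
    have hk1 : k = (k - 1) + 1 := by omega
    have h3 : l ^ (k - 1) * (q - p) ≤ 2 := by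
      have h4 : q ^ (k - 1) * (q - p) ≤ q ^ k - p ^ k := by
        have h5 : p ^ (k - 1) ≤ q ^ (k - 1) := pow_le_pow_left₀ hppos.le hpq.le _
        have h6 : q ^ k = q ^ (k - 1) * q := by
          conv_lhs => rw [hk1, pow_succ]
        have h7 : p ^ k = p ^ (k - 1) * p := by
          conv_lhs => rw [hk1, pow_succ]
        rw [h6, h7]
        nlinarith
      have h5 : l ^ (k - 1) ≤ q ^ (k - 1) := pow_le_pow_left₀ hl (le_trans hlp hpq.le) _
      have h6 : 0 ≤ q - p := by linarith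
      calc l ^ (k - 1) * (q - p) ≤ q ^ (k - 1) * (q - p) := mul_le_mul_of_nonneg_right h5 h6
        _ ≤ 2 := by linarith
    rw [← hla, mul_pow]
    have hlk : 0 < l ^ (k - 1) := by positivity
    have h3k : (0 : ℝ) < 3 ^ (k - 1) := by positivity
    rw [le_div_iff₀ (by positivity)]
    calc (q - p) * (3 ^ (k - 1) * l ^ (k - 1)) = 3 ^ (k - 1) * (l ^ (k - 1) * (q - p)) := by ring
      _ ≤ 3 ^ (k - 1) * 2 := mul_le_mul_of_nonneg_left h3 h3k.le
      _ = 2 * 3 ^ (k - 1) := by ring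

/-- the sum over a block of one variable -/
lemma sum_fib (k : ℕ) (hk : k ≠ 0) (l h η : ℝ) (hl : 0 ≤ l) (hlh : l ≤ h) (hη : 0 < η) (y β : ℝ) (hβ : 0 < β)
    (hβ1 : β ≤ 1) (a b : ℕ) (hab : a ≤ b) :
    ∑ x ∈ Finset.Ico a b, ENNReal.ofReal (P k l h η (y - ((x : ℝ) + β) ^ k)) ≤
      (∫⁻ v in Set.Ico (a : ℝ) b, ENNReal.ofReal (P k l h η (y - v ^ k))) +
        ENNReal.ofReal (V k l h η (y - (a : ℝ) ^ k) - V k l h η (y - (b : ℝ) ^ k)) := by
  have hVm := V_mono k hk l h η hl hlh hη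
  induction b, hab using Nat.le_induction with
  | base => simp
  | succ b hab ih =>
    rw [Finset.sum_Ico_succ_top hab]
    have hb0 : (0 : ℝ) ≤ b := by positivity
    have hcab : (a : ℝ) ≤ b := by exact_mod_cast hab
    have ha0 : (0 : ℝ) ≤ a := by positivity
    have hu : Set.Ico (a : ℝ) ((b + 1 : ℕ) : ℝ) = Set.Ico (a : ℝ) b ∪ Set.Ico (b : ℝ) ((b + 1 : ℕ) : ℝ) := by
      rw [Set.Ico_union_Ico_eq_Ico hcab (by push_cast; linarith)]
    have hd : Disjoint (Set.Ico (a : ℝ) b) (Set.Ico (b : ℝ) ((b + 1 : ℕ) : ℝ)) := by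
      rw [Set.disjoint_left]
      rintro w ⟨_, h1⟩ ⟨h2, _⟩
      linarith
    rw [hu, lintegral_union measurableSet_Ico hd]
    have hab1 : V k l h η (y - (b : ℝ) ^ k) ≤ V k l h η (y - (a : ℝ) ^ k) :=
      hVm (by have := pow_le_pow_left₀ ha0 hcab k; linarith)
    have hbb1 : V k l h η (y - ((b + 1 : ℕ) : ℝ) ^ k) ≤ V k l h η (y - (b : ℝ) ^ k) :=
      hVm (by have := pow_le_pow_left₀ hb0 (show (b : ℝ) ≤ ((b + 1 : ℕ) : ℝ) by push_cast; linarith) k; linarith)
    have e1 : ENNReal.ofReal (V k l h η (y - (a : ℝ) ^ k) - V k l h η (y - ((b + 1 : ℕ) : ℝ) ^ k)) =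
        ENNReal.ofReal (V k l h η (y - (a : ℝ) ^ k) - V k l h η (y - (b : ℝ) ^ k)) +
          ENNReal.ofReal (V k l h η (y - (b : ℝ) ^ k) - V k l h η (y - ((b + 1 : ℕ) : ℝ) ^ k)) := by
      rw [← ENNReal.ofReal_add (by linarith) (by linarith)]
      congr 1
      ring
    rw [e1]
    have hstep : ENNReal.ofReal (P k l h η (y - ((b : ℝ) + β) ^ k)) ≤
        (∫⁻ v in Set.Ico (b : ℝ) ((b + 1 : ℕ) : ℝ), ENNReal.ofReal (P k l h η (y - v ^ k))) +
          ENNReal.ofReal (V k l h η (y - (b : ℝ) ^ k) - V k l h η (y - ((b + 1 : ℕ) : ℝ) ^ k)) := by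
      set D := V k l h η (y - (b : ℝ) ^ k) - V k l h η (y - ((b + 1 : ℕ) : ℝ) ^ k) with hD
      have hvol : volume (Set.Ico (b : ℝ) ((b + 1 : ℕ) : ℝ)) = 1 := by
        rw [Real.volume_Ico]
        push_cast
        simp
      have h1 : ENNReal.ofReal (P k l h η (y - ((b : ℝ) + β) ^ k)) =
          ∫⁻ v in Set.Ico (b : ℝ) ((b + 1 : ℕ) : ℝ), ENNReal.ofReal (P k l h η (y - ((b : ℝ) + β) ^ k)) := by
        rw [setLIntegral_const, hvol, mul_one]
      have h2 : ENNReal.ofReal D = ∫⁻ v in Set.Ico (b : ℝ) ((b + 1 : ℕ) : ℝ), ENNReal.ofReal D := by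
        rw [setLIntegral_const, hvol, mul_one]
      rw [h1, h2, ← lintegral_add_right _ measurable_const]
      apply setLIntegral_mono' measurableSet_Ico
      rintro v ⟨hv1, hv2⟩
      have hv0 : 0 ≤ v := le_trans hb0 hv1
      rw [← ENNReal.ofReal_add (P_nonneg k l h η _ hη.le) (by linarith)]
      apply ENNReal.ofReal_le_ofReal
      have hp1 : (b : ℝ) ^ k ≤ v ^ k := pow_le_pow_left₀ hb0 hv1 k
      have hp2 : v ^ k ≤ ((b + 1 : ℕ) : ℝ) ^ k := pow_le_pow_left₀ hv0 hv2.le k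
      have hp3 : (b : ℝ) ^ k ≤ ((b : ℝ) + β) ^ k := pow_le_pow_left₀ hb0 (by linarith) k
      have hp4 : ((b : ℝ) + β) ^ k ≤ ((b + 1 : ℕ) : ℝ) ^ k :=
        pow_le_pow_left₀ (by linarith) (by push_cast; linarith) k
      rcases le_total (y - ((b : ℝ) + β) ^ k) (y - v ^ k) with h3 | h3
      · have h4 := V_var k hk l h η hl hlh hη _ _ h3
        have h5 := (abs_le.1 h4).2
        have h6 : V k l h η (y - v ^ k) ≤ V k l h η (y - (b : ℝ) ^ k) := hVm (by linarith)
        have h7 : V k l h η (y - ((b + 1 : ℕ) : ℝ) ^ k) ≤ V k l h η (y - ((b : ℝ) + β) ^ k) := hVm (by linarith)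
        linarith
      · have h4 := V_var k hk l h η hl hlh hη _ _ h3
        have h5 := (abs_le.1 h4).1
        have h6 : V k l h η (y - ((b : ℝ) + β) ^ k) ≤ V k l h η (y - (b : ℝ) ^ k) := hVm (by linarith)
        have h7 : V k l h η (y - ((b + 1 : ℕ) : ℝ) ^ k) ≤ V k l h η (y - v ^ k) := hVm (by linarith)
        linarith
    calc _ ≤ _ := add_le_add ih hstep
      _ = _ := by ring

lemma lo_le (a : ℕ) : (lo a : ℝ) ≤ 3 ^ a := by
  unfold lo
  split_ifs with h
  · simp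
  · push_cast
    exact pow_le_pow_right₀ (by norm_num) (by omega)

lemma rt_measurable (k : ℕ) : Measurable (rt k) := (rt_mono k).measurable

lemma G_measurable (k : ℕ) (l h : ℝ) : Measurable (G k l h) := (G_mono k l h).measurable

lemma P_measurable (k : ℕ) (l h η : ℝ) : Measurable (P k l h η) := by
  unfold P
  exact ((G_measurable k l h).comp (measurable_id.add_const η)).sub
    ((G_measurable k l h).comp (measurable_id.sub_const η))

/-! ### Fubini -/

/-- the volume without conversion -/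
noncomputable def vlE (k : ℕ) {t : ℕ} (b : Fin t → ℕ) (η τ : ℝ) : ENNReal :=
  volume {u : Fin t → ℝ | (∀ i, (lo (b i) : ℝ) ≤ u i ∧ u i < 3 ^ b i) ∧ |∑ i, u i ^ k - τ| ≤ η}

/-- the real box -/
def RB {t : ℕ} (b : Fin t → ℕ) : Set (Fin t → ℝ) := {u | ∀ i, (lo (b i) : ℝ) ≤ u i ∧ u i < 3 ^ b i}

lemma RB_eq {t : ℕ} (b : Fin t → ℕ) : RB b = Set.univ.pi fun i => Set.Ico (lo (b i) : ℝ) (3 ^ b i) := by
  ext u
  simp [RB, Set.mem_pi]

lemma RB_meas {t : ℕ} (b : Fin t → ℕ) : MeasurableSet (RB b) := by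
  rw [RB_eq]
  exact MeasurableSet.univ_pi fun i => measurableSet_Ico

lemma RB_vol {t : ℕ} (b : Fin t → ℕ) (a : ℕ) (hb : ∀ i, b i ≤ a) : volume (RB b) ≤ ENNReal.ofReal (((3 : ℝ) ^ a) ^ t) := by
  rw [RB_eq, Real.volume_pi_Ico, ← ENNReal.ofReal_prod_of_nonneg]
  · apply ENNReal.ofReal_le_ofReal
    have h1 : ∏ i : Fin t, ((3 : ℝ) ^ b i - lo (b i)) ≤ ∏ _i : Fin t, (3 : ℝ) ^ a := by
      apply Finset.prod_le_prod
      · intro i _
        have := lo_le (b i)
        linarith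
      · intro i _
        have h2 : (0 : ℝ) ≤ lo (b i) := by positivity
        have h3 : (3 : ℝ) ^ b i ≤ 3 ^ a := pow_le_pow_right₀ (by norm_num) (hb i)
        linarith
    simpa using h1
  · intro i _
    have := lo_le (b i)
    linarith

/-- the set in the product -/
def PS (k : ℕ) {t : ℕ} (b : Fin t → ℕ) (c : ℕ) (η τ : ℝ) : Set (ℝ × (Fin t → ℝ)) :=
  {p | ((lo c : ℝ) ≤ p.1 ∧ p.1 < 3 ^ c) ∧ (∀ i, (lo (b i) : ℝ) ≤ p.2 i ∧ p.2 i < 3 ^ b i) ∧
    |p.1 ^ k + ∑ i, p.2 i ^ k - τ| ≤ η}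

lemma PS_meas (k : ℕ) {t : ℕ} (b : Fin t → ℕ) (c : ℕ) (η τ : ℝ) : MeasurableSet (PS k b c η τ) := by
  have h1 : MeasurableSet {p : ℝ × (Fin t → ℝ) | (lo c : ℝ) ≤ p.1 ∧ p.1 < 3 ^ c} :=
    measurable_fst measurableSet_Ico
  have h2 : MeasurableSet {p : ℝ × (Fin t → ℝ) | ∀ i, (lo (b i) : ℝ) ≤ p.2 i ∧ p.2 i < 3 ^ b i} :=
    measurable_snd (RB_meas b)
  have h3 : MeasurableSet {p : ℝ × (Fin t → ℝ) | |p.1 ^ k + ∑ i, p.2 i ^ k - τ| ≤ η} := by
    apply measurableSet_le _ measurable_const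
    fun_prop
  exact h1.inter (h2.inter h3)

lemma vlE_snoc (k : ℕ) {t : ℕ} (b : Fin t → ℕ) (c : ℕ) (η τ : ℝ) :
    vlE k (Fin.snoc b c : Fin (t + 1) → ℕ) η τ = (volume.prod volume) (PS k b c η τ) := by
  have hmp := volume_preserving_piFinSuccAbove (fun _ : Fin (t + 1) => ℝ) (Fin.last t)
  have h1 := hmp.measure_preimage (PS_meas k b c η τ).nullMeasurableSet
  rw [← Measure.volume_eq_prod, ← h1]
  unfold vlE
  congr 1
  ext u
  simp only [Set.mem_ofPred_eq, Set.mem_preimage, PS, MeasurableEquiv.piFinSuccAbove_apply,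
    Fin.insertNthEquiv_symm_apply, Fin.removeNth, Fin.succAbove_last, Fin.forall_fin_succ', Fin.sum_univ_castSucc,
    Fin.snoc_castSucc, Fin.snoc_last]
  rw [add_comm (∑ i : Fin t, u i.castSucc ^ k) (u (Fin.last t) ^ k)]
  tauto

/-- the first order of integration -/
lemma vlE_one (k : ℕ) {t : ℕ} (b : Fin t → ℕ) (c : ℕ) (η τ : ℝ) :
    vlE k (Fin.snoc b c : Fin (t + 1) → ℕ) η τ =
      ∫⁻ v in Set.Ico (lo c : ℝ) (3 ^ c), vlE k b η (τ - v ^ k) := by
  rw [vlE_snoc, Measure.prod_apply (PS_meas k b c η τ), ← lintegral_indicator measurableSet_Ico]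
  apply lintegral_congr
  intro v
  by_cases hv : v ∈ Set.Ico (lo c : ℝ) (3 ^ c)
  · rw [Set.indicator_of_mem hv]
    unfold vlE
    congr 1
    ext u
    simp only [PS, Set.mem_preimage, Set.mem_ofPred_eq]
    have e1 : v ^ k + ∑ i, u i ^ k - τ = ∑ i, u i ^ k - (τ - v ^ k) := by ring
    rw [e1]
    constructor
    · rintro ⟨_, h2, h3⟩
      exact ⟨h2, h3⟩
    · rintro ⟨h2, h3⟩
      exact ⟨hv, h2, h3⟩
  · rw [Set.indicator_of_notMem hv]
    convert measure_empty (μ := volume)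
    ext u
    simp only [PS, Set.mem_preimage, Set.mem_ofPred_eq, Set.mem_empty_iff_false, iff_false]
    rintro ⟨h1, _⟩
    exact hv h1

/-- the second order of integration -/
lemma vlE_two (k : ℕ) {t : ℕ} (b : Fin t → ℕ) (c : ℕ) (η τ : ℝ) :
    vlE k (Fin.snoc b c : Fin (t + 1) → ℕ) η τ =
      ∫⁻ u in RB b, ps k (lo c) (3 ^ c) η (τ - ∑ i, u i ^ k) := by
  rw [vlE_snoc, Measure.prod_apply_symm (PS_meas k b c η τ), ← lintegral_indicator (RB_meas b)]
  apply lintegral_congr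
  intro u
  by_cases hu : u ∈ RB b
  · rw [Set.indicator_of_mem hu]
    unfold ps
    congr 1
    ext v
    simp only [PS, Set.mem_preimage, Set.mem_ofPred_eq]
    have e1 : v ^ k + ∑ i, u i ^ k - τ = v ^ k - (τ - ∑ i, u i ^ k) := by ring
    rw [e1]
    constructor
    · rintro ⟨h1, _, h3⟩
      exact ⟨h1.1, h1.2, h3⟩
    · rintro ⟨h1, h2, h3⟩
      exact ⟨⟨h1, h2⟩, hu, h3⟩
  · rw [Set.indicator_of_notMem hu]
    convert measure_empty (μ := volume)
    ext v
    simp only [PS, Set.mem_preimage, Set.mem_ofPred_eq, Set.mem_empty_iff_false, iff_false]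
    rintro ⟨_, h1, _⟩
    exact hu h1

lemma vlE_lt_top (k : ℕ) {t : ℕ} (b : Fin t → ℕ) (η τ : ℝ) : vlE k b η τ < ⊤ := by
  obtain ⟨a, ha⟩ : ∃ a : ℕ, ∀ i, b i ≤ a := ⟨Finset.univ.sup b, fun i => Finset.le_sup (Finset.mem_univ i)⟩
  calc vlE k b η τ ≤ volume (RB b) := measure_mono fun u hu => hu.1
    _ ≤ _ := RB_vol b a ha
    _ < ⊤ := ENNReal.ofReal_lt_top

/-- the sum over the new variable, without conversion -/
lemma sumE (k : ℕ) (hk : 2 ≤ k) {t : ℕ} (b : Fin t → ℕ) (a J : ℕ) (hb : ∀ i, b i ≤ a) (η τ β : ℝ) (hη : 0 < η)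
    (hη1 : η ≤ 1) (hβ : 0 < β) (hβ1 : β ≤ 1) :
    ∑ x ∈ blk J, vlE k (Fin.snoc b a : Fin (t + 1) → ℕ) η (τ - ((x : ℝ) + β) ^ k) ≤
      vlE k (Fin.snoc (Fin.snoc b a : Fin (t + 1) → ℕ) J : Fin (t + 1 + 1) → ℕ) η τ +
        ENNReal.ofReal (2 * (2 * 3 ^ (k - 1) / ((3 : ℝ) ^ a) ^ (k - 1)) * ((3 : ℝ) ^ a) ^ t) := by
  have hk0 : k ≠ 0 := by omega
  have hl : (0 : ℝ) ≤ lo a := by positivity
  have hlh := lo_le a
  set M : ℝ := 2 * 3 ^ (k - 1) / ((3 : ℝ) ^ a) ^ (k - 1) with hM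
  have hM0 : 0 ≤ M := by positivity
  have hPm := P_measurable k (lo a) (3 ^ a) η
  have hs : Measurable fun u : Fin t → ℝ => ∑ i, u i ^ k := by fun_prop
  -- the fibres
  have hcast : ((3 ^ J : ℕ) : ℝ) = (3 : ℝ) ^ J := by push_cast; ring
  have hloJ : lo J ≤ 3 ^ J := by
    have := lo_le J
    exact_mod_cast this
  have hfib : ∀ y : ℝ, ∑ x ∈ blk J, ENNReal.ofReal (P k (lo a) (3 ^ a) η (y - ((x : ℝ) + β) ^ k)) ≤
      (∫⁻ v in Set.Ico (lo J : ℝ) (3 ^ J), ENNReal.ofReal (P k (lo a) (3 ^ a) η (y - v ^ k))) +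
        ENNReal.ofReal (2 * M) := by
    intro y
    have h1 := sum_fib k hk0 (lo a) (3 ^ a) η hl hlh hη y β hβ hβ1 (lo J) (3 ^ J) hloJ
    unfold blk
    rw [hcast] at h1
    refine le_trans h1 (add_le_add le_rfl (ENNReal.ofReal_le_ofReal ?_))
    have h2 := V_le k (lo a) (3 ^ a) η hη M (fun z => P_bound k hk a η hη1 z) (y - (lo J : ℝ) ^ k)
    have h3 := V_nonneg k hk0 (lo a) (3 ^ a) η hl hlh hη (y - ((3 : ℝ) ^ J) ^ k)
    linarith
  have hvl : ∀ τ' : ℝ, vlE k (Fin.snoc b a : Fin (t + 1) → ℕ) η τ' =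
      ∫⁻ u in RB b, ENNReal.ofReal (P k (lo a) (3 ^ a) η (τ' - ∑ i, u i ^ k)) := by
    intro τ'
    rw [vlE_two]
    apply lintegral_congr
    intro u
    rw [ps_eq k hk0 _ _ _ _ hl]
  have hmx : ∀ x : ℝ, Measurable fun u : Fin t → ℝ =>
      ENNReal.ofReal (P k (lo a) (3 ^ a) η (τ - x - ∑ i, u i ^ k)) := by
    intro x
    exact (hPm.comp (measurable_const.sub hs)).ennreal_ofReal
  calc ∑ x ∈ blk J, vlE k (Fin.snoc b a : Fin (t + 1) → ℕ) η (τ - ((x : ℝ) + β) ^ k)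
      = ∑ x ∈ blk J, ∫⁻ u in RB b, ENNReal.ofReal (P k (lo a) (3 ^ a) η (τ - ((x : ℝ) + β) ^ k - ∑ i, u i ^ k)) := by
        apply Finset.sum_congr rfl
        intro x _
        exact hvl _
    _ = ∫⁻ u in RB b, ∑ x ∈ blk J, ENNReal.ofReal (P k (lo a) (3 ^ a) η (τ - ((x : ℝ) + β) ^ k - ∑ i, u i ^ k)) := by
        rw [lintegral_finsetSum]
        intro x _
        exact hmx _
    _ ≤ ∫⁻ u in RB b, ((∫⁻ v in Set.Ico (lo J : ℝ) (3 ^ J),
          ENNReal.ofReal (P k (lo a) (3 ^ a) η (τ - ∑ i, u i ^ k - v ^ k))) + ENNReal.ofReal (2 * M)) := by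
        apply lintegral_mono
        intro u
        have h1 := hfib (τ - ∑ i, u i ^ k)
        refine le_trans (le_of_eq ?_) h1
        apply Finset.sum_congr rfl
        intro x _
        congr 2
        ring
    _ = (∫⁻ u in RB b, ∫⁻ v in Set.Ico (lo J : ℝ) (3 ^ J),
          ENNReal.ofReal (P k (lo a) (3 ^ a) η (τ - ∑ i, u i ^ k - v ^ k))) +
          ENNReal.ofReal (2 * M) * volume (RB b) := by
        rw [lintegral_add_right _ measurable_const, setLIntegral_const]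
    _ = (∫⁻ v in Set.Ico (lo J : ℝ) (3 ^ J), ∫⁻ u in RB b,
          ENNReal.ofReal (P k (lo a) (3 ^ a) η (τ - ∑ i, u i ^ k - v ^ k))) +
          ENNReal.ofReal (2 * M) * volume (RB b) := by
        congr 1
        apply lintegral_lintegral_swap
        apply Measurable.aemeasurable
        apply Measurable.ennreal_ofReal
        apply hPm.comp
        apply Measurable.sub
        · exact measurable_const.sub (hs.comp measurable_fst)
        · exact measurable_snd.pow_const k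
    _ = vlE k (Fin.snoc (Fin.snoc b a : Fin (t + 1) → ℕ) J : Fin (t + 1 + 1) → ℕ) η τ +
          ENNReal.ofReal (2 * M) * volume (RB b) := by
        congr 1
        rw [vlE_one]
        apply lintegral_congr
        intro v
        rw [hvl]
        apply lintegral_congr
        intro u
        congr 2
        ring
    _ ≤ _ := by
        apply add_le_add le_rfl
        calc ENNReal.ofReal (2 * M) * volume (RB b) ≤ ENNReal.ofReal (2 * M) * ENNReal.ofReal (((3 : ℝ) ^ a) ^ t) :=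
              mul_le_mul_right (RB_vol b a hb) _
          _ = _ := by
              rw [← ENNReal.ofReal_mul (by positivity)]

/-- JOB TVL -/
theorem stTvl : StTvl := by
  intro k t hk hkt
  refine ⟨4 * 3 ^ (k - 1), by positivity, ?_⟩
  intro b J η τ β hmono hmx hη hη1 hβ hβ1
  obtain ⟨t', rfl⟩ : ∃ t', t = t' + 1 := ⟨t - 1, by omega⟩
  set a := b (Fin.last t') with ha
  have haJ : a ≤ J := le_trans (Finset.le_sup (f := b) (Finset.mem_univ (Fin.last t'))) hmx
  have hb : ∀ i, (Fin.init b) i ≤ a := fun i => hmono (Fin.le_last _)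
  have hsn : (Fin.snoc (Fin.init b) a : Fin (t' + 1) → ℕ) = b := Fin.snoc_init_self b
  have h1 := sumE k hk (Fin.init b) a J hb η τ β hη hη1 hβ hβ1
  rw [hsn] at h1
  have e1 : 2 * (2 * 3 ^ (k - 1) / ((3 : ℝ) ^ a) ^ (k - 1)) * ((3 : ℝ) ^ a) ^ t' ≤
      4 * 3 ^ (k - 1) * ((3 : ℝ) ^ J) ^ (t' + 1 - k) := by
    have e2 : t' = (k - 1) + (t' + 1 - k) := by omega
    have e3 : ((3 : ℝ) ^ a) ^ t' = ((3 : ℝ) ^ a) ^ (k - 1) * ((3 : ℝ) ^ a) ^ (t' + 1 - k) := by
      rw [← pow_add, ← e2]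
    rw [e3]
    have h3 : ((3 : ℝ) ^ a) ^ (t' + 1 - k) ≤ ((3 : ℝ) ^ J) ^ (t' + 1 - k) :=
      pow_le_pow_left₀ (by positivity) (pow_le_pow_right₀ (by norm_num) haJ) _
    have h4 : ((3 : ℝ) ^ a) ^ (k - 1) ≠ 0 := by positivity
    calc 2 * (2 * 3 ^ (k - 1) / ((3 : ℝ) ^ a) ^ (k - 1)) * (((3 : ℝ) ^ a) ^ (k - 1) * ((3 : ℝ) ^ a) ^ (t' + 1 - k))
        = 4 * 3 ^ (k - 1) * ((3 : ℝ) ^ a) ^ (t' + 1 - k) := by
          field_simp
          ring
      _ ≤ _ := mul_le_mul_of_nonneg_left h3 (by positivity)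
  have h2 := ENNReal.toReal_mono (ENNReal.add_ne_top.2 ⟨(vlE_lt_top k _ η τ).ne, ENNReal.ofReal_ne_top⟩) h1
  rw [ENNReal.toReal_sum (fun x _ => (vlE_lt_top k b η _).ne),
    ENNReal.toReal_add (vlE_lt_top k _ η τ).ne ENNReal.ofReal_ne_top,
    ENNReal.toReal_ofReal (by positivity)] at h2
  have h3 : ∑ x ∈ blk J, vl k b η (τ - ((x : ℝ) + β) ^ k) ≤
      vl k (Fin.snoc b J : Fin (t' + 1 + 1) → ℕ) η τ +
        2 * (2 * 3 ^ (k - 1) / ((3 : ℝ) ^ a) ^ (k - 1)) * ((3 : ℝ) ^ a) ^ t' := h2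
  linarith

end Pool.Agent.K7.H90.AF.Tvl
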